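import Mathlib
import Pool.Agent.H35.SHP.ECore
import Pool.Agent.H35.ODD.OMain
import Pool.Agent.H89.EN.Main
import Pool.Agent.H89.ODD.MainE
import Pool.Agent.H48.SHP.Uni

set_option autoImplicit false

/-!
# The Brunn-Minkowski inequality on zonoids for all real subspaces

Let `2 ≤ i < 2n`, let `E` be a real subspace of `ℂⁿ` with a real orthonormal basis `e = (e_1, …, e_i)`,
and `T(θ) = det (cos θ + sin θ Ω)`, `Ω_ab = Im ⟨e_a, e_b⟩`.

The Brunn-Minkowski inequality for the functional `V_E` holds for all convex bodies which are zonoids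
if and only if `i (2n-i) ∫_0^π T(θ) dθ ≤ (i+2) (6n-3i+8) ∫_0^π T(θ) cos 2θ dθ`.  For odd `i` this is
always so (both integrals are `0`).  If it is not so then `E` does not have the Brunn-Minkowski
property.

`Cn n` is `ℂⁿ` with its euclidean structure, `VE E K` is the integral over the unitary group of
the Lebesgue measure of the orthogonal projection of `K` onto `φ(E)` (file
`Pool/Agent/H61/UProj/Stmt.lean`).  A zonotope (`IsZonotope`) is a Minkowski sum of finitely many
segments, a zonoid (`IsZonoid`) is a compact set which is a limit of zonotopes in the Hausdorff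
metric (file `Pool/Agent/H89/CZ/SD.lean`).
-/

namespace Pool.Agent.Results.MP_6cdc09_gt.ZonoidClassification

open Pool.Agent.H61.UProj (Cn)
open Pool.Agent.H61.UProj.Stmt
open Pool.Agent.H89.CZ.SD

/-- `T(θ) = det (cos θ + sin θ Ω)`, `Ω_ab = Im ⟨e_a, e_b⟩`. -/
noncomputable def T {n i : ℕ} (e : Fin i → Cn n) (θ : ℝ) : ℝ :=
  (Matrix.of fun a b : Fin i =>
    Real.cos θ * (if a = b then 1 else 0) + Real.sin θ * (inner ℂ (e a) (e b)).im).det

/-- The condition on `E`. -/
def IntCond {n i : ℕ} (e : Fin i → Cn n) : Prop :=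
  (i : ℝ) * (2 * n - i) * (∫ θ in (0 : ℝ)..Real.pi, T e θ) ≤
    ((i : ℝ) + 2) * (6 * n - 3 * i + 8) * ∫ θ in (0 : ℝ)..Real.pi, T e θ * Real.cos (2 * θ)

theorem result : ∀ n i : ℕ, 2 ≤ i → i < 2 * n → ∀ (E : RSub n) (e : Fin i → Cn n), IsONB e E →
    (HasBMZonoid E ↔ IntCond e) ∧ (Odd i → IntCond e) ∧ (HasBM E → IntCond e) := by
  intro n i hi hin E e he
  have hodd : Odd i → IntCond e := fun h => Pool.Agent.H48.SHP.ucond_odd h e
  have hiff : HasBMZonoid E ↔ IntCond e := by
    rcases Nat.even_or_odd i with hev | ho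
    · obtain ⟨r, hr⟩ := hev
      have hr2 : i = 2 * r := by omega
      subst hr2
      constructor
      · intro h
        by_contra hc
        refine Pool.Agent.H89.EN.main_fail (n := n) (r := r) (by omega) (by omega) E he ?_ h
        have h1 := mt (Pool.Agent.H48.SHP.ucond_even e).2 hc
        exact not_le.1 h1
      · intro h
        obtain ⟨s, rfl⟩ : ∃ s, r = s + 1 := ⟨r - 1, by omega⟩
        have hE : Even (2 * s) := even_two_mul s
        refine Pool.Agent.H89.ODD.mainE (n := n) (m := 2 * s) hE (by omega) E e he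
          (Pool.Agent.H35.SHP.allcore (n := n) (m := 2 * s) hE (by omega) he.1 ?_)
        have h1 := (Pool.Agent.H48.SHP.ucond_even e).1 h
        have h2 : ∀ x y : ℝ, ((s : ℝ) + 1) * (n - (s + 1)) * x ≤
            ((s : ℝ) + 1 + 1) * (3 * n - 3 * (s + 1) + 4) * y →
            (((2 * s : ℕ) : ℝ) + 2) * (2 * n - ((2 * s : ℕ) : ℝ) - 2) * x ≤
            (((2 * s : ℕ) : ℝ) + 4) * (6 * n - 3 * ((2 * s : ℕ) : ℝ) + 2) * y := by
          intro x y hxy
          push_cast
          linarith
        refine h2 _ _ ?_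
        push_cast at h1
        exact h1
    · exact ⟨fun _ => hodd ho, fun _ =>
        Pool.Agent.H35.ODD.mainODD n i (by
          rcases ho with ⟨t, ht⟩
          omega) ho hin E e he⟩
  exact ⟨hiff, hodd, fun hBM => hiff.1 fun K L hK hL _ _ => hBM K L hK hL⟩

end Pool.Agent.Results.MP_6cdc09_gt.ZonoidClassification
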